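import Pool.Agent.U19.SG.Defs
import Pool.Agent.U19.UB.Sanity

/-!
# The translation of the rectangle property for the trivial forcing notion
-/

set_option autoImplicit false

namespace Pool.Agent.U19.SG

open Cardinal Set Pool.Agent.Helper669.Forcing Pool.Agent.U19.UB

variable {E : Type}

/-- For the trivial forcing notion `NoRectN` is `NoRect`. -/
theorem noRectN_unit : u ∈ NoRectN Unit E ↔ NoRect E := by
  have key : ∀ A B : ℕ → E → Set Unit, (fun n => ev (rectN (A n) (B n))) =
      fun (n : ℕ) (z : E × E) => ev (A n) z.1 ∧ ev (B n) z.2 := by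
    intro A B
    funext n z
    refine propext ?_
    show u ∈ fand (meets (A n z.1)) (meets (B n z.2)) ↔ _
    rw [mem_fand, u_meets, u_meets]
    exact Iff.rfl
  simp only [NoRectN, u_fex, mem_fall, u_fnot, u_InSigN, NoRect, key]
  constructor
  · rintro ⟨D, hD⟩
    exact ⟨ev D, fun A B => hD (fun n => nm (A n)) fun n => nm (B n)⟩
  · rintro ⟨D, hD⟩
    exact ⟨nm D, fun A B => hD (fun n => ev (A n)) fun n => ev (B n)⟩

end Pool.Agent.U19.SG
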