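import Pool.Agent.U19.UB.Defs

/-!
# The failure of the rectangle property, and its forcing translation
-/

set_option autoImplicit false

namespace Pool.Agent.U19.SG

open Pool.Agent.Helper669.Forcing Pool.Agent.U19.UB

/-- There is a subset `D` of `E × E` which is not in the `σ`-algebra generated by a sequence of
rectangles `A n × B n`. -/
def NoRect (E : Type) : Prop :=
  ∃ D : E × E → Prop, ∀ A B : ℕ → E → Prop, ¬ InSig (fun n z => A n z.1 ∧ B n z.2) D

section Names

variable {P : Type} [Preorder P] {E : Type}

/-- The name of the rectangle with the sides named by `A` and `B`. -/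
def rectN (A B : E → Set P) : E × E → Set P := fun z => fand (meets (A z.1)) (meets (B z.2))

/-- Forcing version of `NoRect`. -/
def NoRectN (P : Type) [Preorder P] (E : Type) : Set P :=
  fex fun D : E × E → Set P => fall fun A : ℕ → E → Set P => fall fun B : ℕ → E → Set P =>
    fnot (InSigN (fun n => rectN (A n) (B n)) D)

end Names

end Pool.Agent.U19.SG
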