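import Pool.Agent.U19.SG.Defs
import Pool.Agent.U19.UB.Model

/-!
# The rectangle property fails after adding Cohen reals
-/

set_option autoImplicit false

namespace Pool.Agent.U19.SG

open Cardinal Set Pool.Agent.Helper669.Forcing Pool.Agent.W631.CG Pool.Agent.W684.FM
open Pool.Agent.U19.UB

section General

variable {P : Type} [Preorder P] {E : Type}

theorem fex_dense {ι : Type} {φ : ι → Set P} {q : P} (h : ∀ r ≤ q, ∃ s ≤ r, s ∈ fex φ) :
    q ∈ fex φ := by
  refine mem_fex.2 fun r hr => ?_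
  obtain ⟨s, hs, h1⟩ := h r hr
  obtain ⟨t, ht, i, hi⟩ := mem_fex.1 h1 s le_rfl
  exact ⟨t, ht.trans hs, i, hi⟩

theorem memN_dense {T : E → Set P} {S : (E → Set P) → Set P} {q : P}
    (h : ∀ r ≤ q, ∃ s ≤ r, s ∈ MemN T S) : q ∈ MemN T S := fex_dense h

theorem memN_congr {T T' : E → Set P} {S : (E → Set P) → Set P} {p : P} (h : p ∈ EqN T T')
    (h' : p ∈ MemN T' S) : p ∈ MemN T S := by
  refine mem_fex.2 fun q hq => ?_
  obtain ⟨r, hr, T'', h1, h2⟩ := mem_fex.1 h' q hq
  refine ⟨r, hr, T'', h1, mem_EqN.2 fun x t ht => ?_⟩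
  exact (mem_EqN.1 h x t (ht.trans (hr.trans hq))).trans (mem_EqN.1 h2 x t ht)

theorem memN_imp {φ : Set P} {T : E → Set P} {S : (E → Set P) → Set P} {p q : P}
    (h : p ∈ fimp φ (MemN T S)) (hφ : Down φ) (hq : q ≤ p) (hq' : q ∈ φ) : q ∈ MemN T S :=
  memN_dense fun r hr => mem_fimp.1 h r (hr.trans hq) (hφ _ hq' r hr)

/-- the family of subsets of `E × E` whose section at `e` belongs to `S` -/
def secF (e : E) (S : (E → Set P) → Set P) : (E × E → Set P) → Set P :=
  fun T => MemN (fun x => T (e, x)) S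

theorem secF_intro {e : E} {S : (E → Set P) → Set P} {T : E × E → Set P} {p : P}
    (h : p ∈ MemN (fun x => T (e, x)) S) : p ∈ MemN T (secF e S) :=
  mem_fex_of_mem T (down_fand (down_meets _) (down_EqN _ _))
    ⟨meets_of_mem h, mem_EqN.2 fun _ _ _ => Iff.rfl⟩

theorem secF_elim {e : E} {S : (E → Set P) → Set P} {T : E × E → Set P} {p : P}
    (h : p ∈ MemN T (secF e S)) : p ∈ MemN (fun x => T (e, x)) S := by
  refine memN_dense fun q hq => ?_
  obtain ⟨r, hr, T', h1, h2⟩ := mem_fex.1 h q hq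
  obtain ⟨s, hs, h3⟩ := exists_of_meets (down_MemN _ _) h1
  refine ⟨s, hs.trans hr, memN_congr (T' := fun x => T' (e, x)) ?_ h3⟩
  exact mem_EqN.2 fun x t ht => mem_EqN.1 h2 (e, x) t (ht.trans hs)

theorem memN_empty {S : (E → Set P) → Set P} {B : E → Set P} {p : P} (hB : p ∈ MemN B S)
    (hS : p ∈ SigmaClosedN S) {T : E → Set P} (hT : ∀ x, p ∈ fnot (meets (T x))) :
    p ∈ MemN T S := by
  have h1 : p ∈ MemN (complN B) S := memN_imp (hS.1 B) (down_MemN _ _) le_rfl hB
  let U : ℕ → E → Set P := fun k => if k = 0 then B else complN B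
  have h2 : p ∈ fall fun k => MemN (U k) S := by
    intro k
    by_cases hk : k = 0
    · show p ∈ MemN (U k) S
      simp only [U, hk, if_true]; exact hB
    · show p ∈ MemN (U k) S
      simp only [U, hk, if_false]; exact h1
  have h3 : p ∈ MemN (unionN U) S :=
    memN_imp (hS.2 U) (down_fall fun _ => down_MemN _ _) le_rfl h2
  have h4 : p ∈ MemN (complN (unionN U)) S :=
    memN_imp (hS.1 _) (down_MemN _ _) le_rfl h3
  refine memN_congr ?_ h4
  refine mem_EqN.2 fun x t ht => ⟨fun h => absurd h (hT x t ht), fun h => ?_⟩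
  exfalso
  have h5 : t ∈ fnot (meets (unionN U x)) := meets_fnot (down_meets _) h
  refine h5 t le_rfl ?_
  apply meets_of_dense
  intro r hr
  by_cases hr' : ∃ s ≤ r, s ∈ meets (B x)
  · obtain ⟨s, hs, hsB⟩ := hr'
    refine ⟨s, hs, ?_⟩
    intro u hu
    obtain ⟨v, hv, w, hw, hvw⟩ := hsB u hu
    exact ⟨v, hv, w, mem_iUnion.2 ⟨0, by simpa [U] using hw⟩, hvw⟩
  · push Not at hr'
    refine ⟨r, le_rfl, ?_⟩
    have h6 : r ∈ fnot (meets (B x)) := fun s hs => hr' s hs
    refine meets_of_mem (mem_iUnion.2 ⟨1, ?_⟩)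
    simpa [U, complN] using h6

theorem sigma_secF {e : E} {S : (E → Set P) → Set P} {r : P} (h : r ∈ SigmaClosedN S) :
    r ∈ SigmaClosedN (secF e S) := by
  constructor
  · intro T
    refine mem_fimp.2 fun q hq h1 => ⟨q, le_rfl, ?_⟩
    apply secF_intro
    exact memN_imp (h.1 fun x => T (e, x)) (down_MemN _ _) hq (secF_elim h1)
  · intro T
    refine mem_fimp.2 fun q hq h1 => ⟨q, le_rfl, ?_⟩
    apply secF_intro
    have := memN_imp (h.2 fun n x => T n (e, x)) (down_fall fun _ => down_MemN _ _) hq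
      fun n => secF_elim (h1 n)
    exact this

theorem rect_secF {e : E} {S : (E → Set P) → Set P} {A B : E → Set P} {r : P}
    (hB : r ∈ MemN B S) (h : r ∈ SigmaClosedN S) : r ∈ MemN (rectN A B) (secF e S) := by
  apply secF_intro
  refine memN_dense fun q hq => ?_
  by_cases hA : ∃ s ≤ q, s ∈ meets (A e)
  · obtain ⟨s, hs, hsA⟩ := hA
    refine ⟨s, hs, memN_congr (T' := B) ?_ (down_MemN _ _ _ hB s (hs.trans hq))⟩
    refine mem_EqN.2 fun x t ht => ⟨fun h1 => ?_, fun h1 => ?_⟩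
    · obtain ⟨-, h2⟩ : t ∈ meets (A e) ∧ t ∈ meets (B x) := by
        have hd : Down (rectN A B (e, x)) := down_fand (down_meets _) (down_meets _)
        constructor
        · exact down_meets _ _ hsA t ht
        · apply meets_of_dense
          intro u hu
          obtain ⟨v, hv, w, hw, hvw⟩ := h1 u hu
          exact ⟨v, hv, (hd w hw v hvw).2⟩
      exact h2
    · exact meets_of_mem ⟨down_meets _ _ hsA t ht, h1⟩
  · push Not at hA
    refine ⟨q, le_rfl, memN_empty (down_MemN _ _ _ hB q hq) (down_SigmaClosedN _ _ h q hq) ?_⟩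
    intro x s hs h1
    obtain ⟨t, ht, u, hu, htu⟩ := h1 s le_rfl
    exact hA t (ht.trans hs) (down_meets _ _ hu.1 t htu)

/-- The sections of a set in the `σ`-algebra generated by rectangles are in the `σ`-algebra
generated by their second sides. -/
theorem sec_inSig {A B : ℕ → E → Set P} {D : E × E → Set P} {q : P}
    (h : q ∈ InSigN (fun n => rectN (A n) (B n)) D) (e : E) :
    q ∈ InSigN B (fun x => D (e, x)) := by
  intro S
  refine mem_fimp.2 fun r hr hS => ?_
  obtain ⟨s, hs, h1⟩ := mem_fimp.1 (h (secF e S)) r hr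
    ⟨fun n => rect_secF (hS.1 n) hS.2, sigma_secF hS.2⟩
  exact ⟨s, hs, secF_elim h1⟩

end General

theorem noRectN {J E : Type} [Infinite J] (hE : 𝔠 < #E) (hpow : #E ^ (ℵ₁ : Cardinal.{0}) = #E)
    (p : Fn J Bool) : p ∈ NoRectN (Fn J Bool) E := by
  have h1 : #{Z : Set E // #Z ≤ ℵ₁} ≤ #E := by
    refine (mk_bounded_set_le E ℵ₁).trans ?_
    have h0 : max #E ℵ₀ = #E := max_eq_left (aleph0_le_continuum.trans hE.le)
    rw [h0, hpow]
  have h2 : Nonempty {Z : Set E // #Z ≤ ℵ₁} := ⟨⟨∅, by simp⟩⟩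
  obtain ⟨g, hg⟩ : ∃ g : E → {Z : Set E // #Z ≤ ℵ₁}, Function.Surjective g := by
    obtain ⟨f⟩ := h1
    exact ⟨Function.invFun f, Function.invFun_surjective f.injective⟩
  refine mem_fex_of_mem (fun z => {_p | z.2 ∈ (g z.1).1})
    (down_fall fun _ => down_fall fun _ => down_fnot _) ?_
  intro A B
  obtain ⟨Z, hZ, hB⟩ := exists_not_inSig hE B
  obtain ⟨e, he⟩ := hg ⟨Z, hZ.le⟩
  intro q _ hq
  refine hB q ?_
  have hq' : q ∈ InSigN B (fun x => {_p | x ∈ (g e).1}) := sec_inSig hq e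
  rw [he] at hq'
  exact hq'

/-- There is a forcing notion which forces that a set `E` has the cardinality of the continuum and
that not all subsets of `E × E` are in the `σ`-algebra generated by the rectangles. -/
theorem exists_forcing_noRect : ∃ (P : Type) (_ : Preorder P) (E : Type), Nonempty P ∧ ∀ p : P,
    p ∈ CardinalsPreserved.{0, 0} P ∧ p ∈ OmegaOnePreserved P ∧
    p ∈ SizeContN P E ∧ p ∈ NoRectN P E := by
  let E : Type := Set (Set ℕ)
  have h1 : #E = (2 : Cardinal.{0}) ^ 𝔠 := by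
    rw [mk_set, mk_set, mk_nat, two_power_aleph0]
  have h2 : 𝔠 < #E := by rw [h1]; exact cantor _
  have h3 : ∀ c : Cardinal.{0}, c ≤ 𝔠 → c ≠ 0 → #E ^ c = #E := by
    intro c hc hc0
    rw [h1, ← power_mul]
    congr 1
    exact mul_eq_left aleph0_le_continuum hc hc0
  have hI : Infinite (E × ℕ) := inferInstance
  refine ⟨Fn (E × ℕ) Bool, inferInstance, E, ⟨⟨∅, fun _ => true⟩⟩, fun p => ⟨?_, ?_, ?_, ?_⟩⟩
  · exact Fn.pccc.cardinalsPreserved p
  · exact Fn.pccc.omegaOnePreserved p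
  · exact sizeContN (aleph0_le_continuum.trans h2.le) (h3 _ aleph0_le_continuum
      aleph0_ne_zero) p
  · exact noRectN h2 (h3 _ aleph_one_le_continuum (aleph_pos 1).ne') p

end Pool.Agent.U19.SG
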